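import Pool.Agent.TH901.H2A.Stm

/-!
# ARH2-DET1: odd edges (helper606)
-/

set_option autoImplicit false

namespace Pool.Agent.TH606.H2A

open Pool.Agent.Helper741 Pool.Agent.TH901.H2A

section Grp

variable {V : Type} [AddCommGroup V] [Module ℝ V]

/-- logarithmically homogeneous functions -/
def Om (V : Type) [AddCommGroup V] [Module ℝ V] : Type :=
  {h : V → ℝ // ∀ v : V, v ≠ 0 → ∀ l : ℝ, l ≠ 0 → h (l • v) = h v + Real.log |l|}

/-- the action by precomposition -/
def pre (g : V ≃ₗ[ℝ] V) (h : Om V) : Om V :=
  ⟨fun v => h.1 (g v), fun v hv l hl => by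
    show h.1 (g (l • v)) = h.1 (g v) + Real.log |l|
    rw [map_smul]
    exact h.2 (g v) (fun h0 => hv ((map_eq_zero_iff g g.injective).1 h0)) l hl⟩

/-- the action on the functions -/
def ph : (V ≃ₗ[ℝ] V) →* MulAut (Multiplicative (Om V → ℝ)) where
  toFun g :=
    { toFun := fun F => Multiplicative.ofAdd fun h => Multiplicative.toAdd F (pre g h)
      invFun := fun F => Multiplicative.ofAdd fun h => Multiplicative.toAdd F (pre g⁻¹ h)
      left_inv := fun F => by
        apply Multiplicative.toAdd.injective
        funext h
        simp only [toAdd_ofAdd]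
        exact congrArg (Multiplicative.toAdd F) (Subtype.ext (funext fun v => by simp [pre]))
      right_inv := fun F => by
        apply Multiplicative.toAdd.injective
        funext h
        simp only [toAdd_ofAdd]
        exact congrArg (Multiplicative.toAdd F) (Subtype.ext (funext fun v => by simp [pre]))
      map_mul' := fun F F' => rfl }
  map_one' := by
    ext F
    rfl
  map_mul' g g' := by
    ext F
    rfl

/-- the group -/
abbrev GG (V : Type) [AddCommGroup V] [Module ℝ V] : Type :=
  Multiplicative (Om V → ℝ) ⋊[ph] (V ≃ₗ[ℝ] V)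

/-- evaluation at `v` -/
def ev (v : V) : Multiplicative (Om V → ℝ) := Multiplicative.ofAdd fun h => h.1 v

theorem ph_ev (g : V ≃ₗ[ℝ] V) (v : V) : ph g (ev v) = ev (g v) := rfl

/-- the generators -/
def gn (v : V) (g : V ≃ₗ[ℝ] V) : GG V := ⟨ev v, g⟩

theorem alt_gn (v w : V) (g g' : V ≃ₗ[ℝ] V) (m : ℕ) :
    alt (gn v g) (gn w g') m =
      ⟨Multiplicative.ofAdd fun h => ∑ k ∈ Finset.range m,
        h.1 ((alt g g' k) (if Even k then v else w)), alt g g' m⟩ := by
  induction m with
  | zero =>
    simp only [alt_zero, Finset.range_zero, Finset.sum_empty]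
    rfl
  | succ m ih =>
    rw [alt_succ', ih]
    have h1 : (if Even m then gn v g else gn w g') =
        (⟨ev (if Even m then v else w), if Even m then g else g'⟩ : GG V) := by
      split_ifs <;> rfl
    rw [h1]
    refine SemidirectProduct.ext ?_ ?_
    · rw [SemidirectProduct.mul_left]
      simp only [ph_ev]
      apply Multiplicative.toAdd.injective
      funext h
      simp only [toAdd_mul, toAdd_ofAdd, Pi.add_apply, Finset.sum_range_succ, ev]
    · rw [SemidirectProduct.mul_right]
      exact (alt_succ' g g' m).symm

/-- constants -/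
def io (V : Type) [AddCommGroup V] [Module ℝ V] : Multiplicative ℝ →* GG V where
  toFun r := ⟨Multiplicative.ofAdd fun _ => Multiplicative.toAdd r, 1⟩
  map_one' := rfl
  map_mul' r s := by
    refine SemidirectProduct.ext ?_ ?_
    · rw [SemidirectProduct.mul_left]
      rfl
    · rw [SemidirectProduct.mul_right]
      exact (one_mul 1).symm

theorem io_comm (x : Multiplicative ℝ) (g : GG V) : io V x * g = g * io V x := by
  refine SemidirectProduct.ext ?_ ?_
  · rw [SemidirectProduct.mul_left, SemidirectProduct.mul_left]
    have h1 : ph (io V x).right g.left = g.left := rfl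
    have h2 : ph g.right (io V x).left = (io V x).left := rfl
    rw [h1, h2, mul_comm]
  · rw [SemidirectProduct.mul_right, SemidirectProduct.mul_right]
    have h1 : (io V x).right = 1 := rfl
    rw [h1, one_mul, mul_one]

theorem quot_eq (F F' : Multiplicative (Om V → ℝ)) (g : V ≃ₗ[ℝ] V) (c : ℝ)
    (h : ∀ h, Multiplicative.toAdd F h - Multiplicative.toAdd F' h = c) :
    ((⟨F, g⟩ : GG V) * (⟨F', g⟩ : GG V)⁻¹) = io V (Multiplicative.ofAdd c) := by
  rw [mul_inv_eq_iff_eq_mul]
  refine SemidirectProduct.ext ?_ ?_
  · rw [SemidirectProduct.mul_left]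
    apply Multiplicative.toAdd.injective
    funext x
    have := h x
    show Multiplicative.toAdd F x = c + Multiplicative.toAdd F' x
    linarith
  · rw [SemidirectProduct.mul_right]
    exact (one_mul g).symm

end Grp

/-- the number of factors -/
theorem sum_alt (x : ℝ) (m : ℕ) :
    ∑ k ∈ Finset.range m, (if Even k then x else -x) = if Odd m then x else 0 := by
  induction m with
  | zero => simp
  | succ m ih =>
    rw [Finset.sum_range_succ, ih]
    by_cases h : Even m
    · have h1 : ¬ Odd m := Nat.not_odd_iff_even.2 h
      have h2 : Odd (m + 1) := h.add_one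
      simp [h, h1, h2]
    · have h1 : Odd m := Nat.not_even_iff_odd.1 h
      have h2 : ¬ Odd (m + 1) := by
        rw [Nat.not_odd_iff_even]
        exact h1.add_one
      simp [h, h1, h2]

theorem det1_of (hd : S_dih) : S_det1 := by
  intro B _ _ M a b hab hodd
  classical
  -- the scaling factors
  set κ : B → B → ℝ := fun i j =>
    if i = a ∧ j = b then 2 else if i = b ∧ j = a then 1 / 2 else 1 with hκdef
  have hκ : KC κ := by
    constructor
    · intro i j
      simp only [hκdef]
      split_ifs <;> norm_num
    · intro i j
      simp only [hκdef]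
      by_cases h1 : i = a ∧ j = b
      · have h2 : ¬ (j = a ∧ i = b) := fun h => hab (h1.1.symm.trans h.2)
        have h3 : j = b ∧ i = a := ⟨h1.2, h1.1⟩
        rw [if_pos h1, if_neg h2, if_pos h3]
        norm_num
      · by_cases h2 : i = b ∧ j = a
        · have h3 : j = a ∧ i = b := ⟨h2.2, h2.1⟩
          rw [if_neg h1, if_pos h2, if_pos h3]
          norm_num
        · have h3 : ¬ (j = a ∧ i = b) := fun h => h2 ⟨h.2, h.1⟩
          have h4 : ¬ (j = b ∧ i = a) := fun h => h1 ⟨h.2, h.1⟩
          rw [if_neg h1, if_neg h2, if_neg h3, if_neg h4]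
          norm_num
  set c : B → B → ℝ := fun i j => if i ≠ j ∧ Odd (M i j) then -Real.log (κ i j) else 0 with hc
  refine ⟨c, ?_, ?_, ?_⟩
  · refine ⟨GG (B → ℝ), inferInstance, fun i => gn (ee i) (rf M κ hκ i), io (B → ℝ), ?_,
      io_comm, ?_⟩
    · -- injective
      have hh : Nonempty (Om (B → ℝ)) := by
        refine ⟨⟨fun v => Real.log (∑ i, |v i|), ?_⟩⟩
        intro v hv l hl
        have h1 : ∑ i, |(l • v) i| = |l| * ∑ i, |v i| := by
          simp [Finset.mul_sum, abs_mul]
        have h2 : ∑ i, |v i| ≠ 0 := by
          intro h0
          apply hv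
          funext i
          have := (Finset.sum_eq_zero_iff_of_nonneg (fun i _ => abs_nonneg (v i))).1 h0 i
            (Finset.mem_univ i)
          simpa using this
        simp only [h1]
        rw [Real.log_mul (abs_ne_zero.2 hl) h2]
        ring
      obtain ⟨h0⟩ := hh
      intro x y hxy
      have h1 := congrArg (fun z : GG (B → ℝ) => Multiplicative.toAdd z.left h0) hxy
      exact Multiplicative.toAdd.injective h1
    · intro i j
      by_cases hij : i = j
      · subst hij
        have h0 : c i i = 0 := by simp [hc]
        rw [h0]
        unfold val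
        rw [mul_inv_cancel]
        simp
      by_cases hm : M i j = 0
      · have h0 : c i j = 0 := by simp [hc, hm]
        rw [h0]
        unfold val
        rw [hm]
        simp
      obtain ⟨e1, e2, -, e4⟩ := hd B M κ hκ i j hij hm
      have hm' : M j i ≠ 0 := by rw [M.symmetric j i]; exact hm
      obtain ⟨-, e2', -, -⟩ := hd B M κ hκ j i (Ne.symm hij) hm'
      have hcc : cc M j i = cc M i j := (cc_symm M i j).symm
      have hκ0 : κ i j ≠ 0 := (hκ.1 i j).ne'
      have hκji : κ j i = (κ i j)⁻¹ := by
        have := hκ.2 i j
        field_simp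
        linarith
      unfold val
      rw [alt_gn, alt_gn, ← e1]
      apply quot_eq
      intro h
      simp only [toAdd_ofAdd]
      -- reverse the second sum
      rw [← Finset.sum_range_reflect (fun k => h.1 ((alt (rf M κ hκ j) (rf M κ hκ i) k)
        (if Even k then ee j else ee i)))]
      have key : ∀ k ∈ Finset.range (M i j),
          h.1 ((alt (rf M κ hκ j) (rf M κ hκ i) (M i j - 1 - k))
            (if Even (M i j - 1 - k) then ee j else ee i)) =
          h.1 ((alt (rf M κ hκ i) (rf M κ hκ j) k) (if Even k then ee i else ee j)) +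
            (if Odd (M i j) then (if Even k then Real.log (κ i j) else -Real.log (κ i j)) else 0) := by
        intro k hk
        rw [Finset.mem_range] at hk
        have hne : (alt (rf M κ hκ i) (rf M κ hκ j) k) (if Even k then ee i else ee j) ≠ 0 := by
          rw [Ne, LinearEquiv.map_eq_zero_iff]
          split_ifs
          · intro h0
            have := congrFun h0 i
            simp [ee] at this
          · intro h0
            have := congrFun h0 j
            simp [ee] at this
        have q1 : qs (cc M i j) (M i j - 1 - k + 1) = qs (cc M i j) k := by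
          rw [← e4 k (by omega)]
          congr 1
          omega
        have q2 : qs (cc M i j) (M i j - 1 - k) = qs (cc M i j) (k + 1) := by
          rw [← e4 (k + 1) (by omega)]
          congr 1
          omega
        by_cases hmo : Odd (M i j)
        · rw [if_pos hmo]
          have hpar : Even (M i j - 1 - k) ↔ Even k := by
            obtain ⟨t, ht⟩ := hmo
            rw [ht, show 2 * t + 1 - 1 - k = 2 * t - k by omega, Nat.even_sub (by omega)]
            simp
          by_cases hk2 : Even k
          · have e5 : (alt (rf M κ hκ j) (rf M κ hκ i) (M i j - 1 - k))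
                (if Even (M i j - 1 - k) then ee j else ee i) =
                (κ i j) • (alt (rf M κ hκ i) (rf M κ hκ j) k) (if Even k then ee i else ee j) := by
              rw [e2, e2', if_pos (hpar.2 hk2), if_pos hk2, hcc, q1, q2, hκji, smul_add, smul_smul,
                smul_smul, inv_inv, ← mul_assoc, mul_inv_cancel₀ hκ0, one_mul, add_comm]
            rw [e5, h.2 _ hne _ hκ0, abs_of_pos (hκ.1 i j)]
            simp only [if_pos hk2]
          · have e5 : (alt (rf M κ hκ j) (rf M κ hκ i) (M i j - 1 - k))
                (if Even (M i j - 1 - k) then ee j else ee i) =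
                (κ i j)⁻¹ •
                  (alt (rf M κ hκ i) (rf M κ hκ j) k) (if Even k then ee i else ee j) := by
              rw [e2, e2', if_neg (fun h => hk2 (hpar.1 h)), if_neg hk2, hcc, q1, q2, hκji, smul_add,
                smul_smul, smul_smul, ← mul_assoc, inv_mul_cancel₀ hκ0, one_mul, add_comm]
            rw [e5, h.2 _ hne _ (inv_ne_zero hκ0), abs_inv, Real.log_inv, abs_of_pos (hκ.1 i j)]
            simp only [if_neg hk2]
        · rw [if_neg hmo, add_zero]
          have hpar : Even (M i j - 1 - k) ↔ ¬ Even k := by
            have he : Even (M i j) := Nat.not_odd_iff_even.1 hmo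
            obtain ⟨t, ht⟩ := he
            constructor
            · rintro ⟨s, hs⟩ ⟨r, hr⟩
              omega
            · intro h
              rw [Nat.not_even_iff_odd] at h
              obtain ⟨r, hr⟩ := h
              exact ⟨t - 1 - r, by omega⟩
          by_cases hk2 : Even k
          · have e5 : (alt (rf M κ hκ j) (rf M κ hκ i) (M i j - 1 - k))
                (if Even (M i j - 1 - k) then ee j else ee i) =
                (alt (rf M κ hκ i) (rf M κ hκ j) k) (if Even k then ee i else ee j) := by
              rw [e2, e2', if_neg (fun h => (hpar.1 h) hk2), if_pos hk2, hcc, q1, q2, hκji, add_comm]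
            rw [e5]
          · have e5 : (alt (rf M κ hκ j) (rf M κ hκ i) (M i j - 1 - k))
                (if Even (M i j - 1 - k) then ee j else ee i) =
                (alt (rf M κ hκ i) (rf M κ hκ j) k) (if Even k then ee i else ee j) := by
              rw [e2, e2', if_pos (hpar.2 hk2), if_neg hk2, hcc, q1, q2, hκji, inv_inv, add_comm]
            rw [e5]
      rw [Finset.sum_congr rfl key, Finset.sum_add_distrib]
      have h5 : ∑ k ∈ Finset.range (M i j), (if Odd (M i j) then
          (if Even k then Real.log (κ i j) else -Real.log (κ i j)) else 0) = -c i j := by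
        by_cases hmo : Odd (M i j)
        · simp only [if_pos hmo]
          rw [sum_alt, if_pos hmo]
          simp [hc, hij, hmo]
        · simp [hc, hmo]
      rw [h5]
      ring
  · have h1 : c a b = -Real.log 2 := by
      simp [hc, hab, hodd, hκdef]
    rw [h1]
    have := Real.log_pos (show (1 : ℝ) < 2 by norm_num)
    linarith [this]
  · intro i j h1 h2
    have h3 : ¬ (i = a ∧ j = b) := fun h => h1 (by rw [h.1, h.2])
    have h4 : ¬ (i = b ∧ j = a) := fun h => h2 (by rw [h.1, h.2])
    simp [hc, hκdef, h3, h4]

end Pool.Agent.TH606.H2A
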